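import Pool.Agent.MT100E.Stmts
import Pool.Agent.Helper64_MTA.Jor

/-! MT100-E, module JOX: the multiplicative Jordan decomposition of a neat matrix, with the spectral
projections in the double commutant and a multiplicatively independent system. The proofs follow the
ones of `Pool.Agent.Helper64_MTA.Jor`. -/

set_option autoImplicit false

namespace Pool.Agent.MT100E.H46

open Matrix Polynomial Pool.Agent.MT100A Pool.Agent.MT100A.H64

variable {d : Type} [Fintype d] [DecidableEq d]

/-- polynomials in `h` commute with the commutant of `h` -/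
theorem aeval_comm (h B : Matrix d d ℂ) (hB : h * B = B * h) (q : ℂ[X]) :
    aeval h q * B = B * aeval h q := by
  have hpow : ∀ n : ℕ, h ^ n * B = B * h ^ n := fun n =>
    ((show Commute h B from hB).pow_left n).eq
  induction q using Polynomial.induction_on' with
  | add p q hp hq => rw [map_add, add_mul, mul_add, hp, hq]
  | monomial n a =>
    rw [aeval_monomial, Algebra.algebraMap_eq_smul_one, smul_mul_assoc, one_mul, smul_mul_assoc,
      mul_smul_comm, hpow]

/-- spectral projections, in the double commutant -/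
theorem specx (h : Matrix d d ℂ) :
    ∃ (n N : ℕ) (lam : Fin n → ℂ) (π : Fin n → Matrix d d ℂ),
      (∀ a, h.charpoly.IsRoot (lam a)) ∧ (∀ a, π a * π a = π a) ∧
      (∀ a b, a ≠ b → π a * π b = 0) ∧ ∑ a, π a = 1 ∧ (∀ a, π a * h = h * π a) ∧
      (∀ a, (h - lam a • (1 : Matrix d d ℂ)) ^ N * π a = 0) ∧
      ∀ B : Matrix d d ℂ, h * B = B * h → ∀ a, π a * B = B * π a := by
  classical
  set Λ := h.charpoly.roots.toFinset with hΛ
  set N := Fintype.card d
  have hne : h.charpoly ≠ 0 := (Matrix.charpoly_monic h).ne_zero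
  choose p hp1 hp2 using fun a : ℂ => crt Λ N a
  let e : Fin Λ.card ≃ {x // x ∈ Λ} := Λ.equivFin.symm
  have hinj : ∀ a b : Fin Λ.card, a ≠ b → (e a : ℂ) ≠ (e b : ℂ) := fun a b hab hE =>
    hab (e.injective (Subtype.ext hE))
  have hsur : ∀ c ∈ Λ, ∃ a : Fin Λ.card, (e a : ℂ) = c := fun c hc =>
    ⟨e.symm ⟨c, hc⟩, by rw [Equiv.apply_symm_apply]⟩
  have comm : ∀ f g : ℂ[X], aeval h f * aeval h g = aeval h g * aeval h f := fun f g => by
    rw [← map_mul, ← map_mul, mul_comm]
  refine ⟨Λ.card, N, fun a => (e a : ℂ), fun a => aeval h (p (e a : ℂ)), fun a => ?_, fun a => ?_,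
    fun a b hab => ?_, ?_, fun a => ?_, fun a => ?_, fun B hB a => ?_⟩
  · have h5 : ∀ c ∈ Λ, h.charpoly.IsRoot c := fun c hc =>
      (Polynomial.mem_roots hne).mp (Multiset.mem_toFinset.mp hc)
    exact h5 _ (e a).2
  · rw [← map_mul, ← sub_eq_zero, ← map_sub]
    refine ann h _ fun c hc => ?_
    by_cases hca : c = e a
    · rw [hca]
      have : p (e a : ℂ) * p (e a : ℂ) - p (e a : ℂ) = (p (e a : ℂ) - 1) * p (e a : ℂ) := by ring
      rw [this]
      exact Dvd.dvd.mul_right (hp1 _) _
    · have : p (e a : ℂ) * p (e a : ℂ) - p (e a : ℂ) = p (e a : ℂ) * (p (e a : ℂ) - 1) := by ring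
      rw [this]
      exact Dvd.dvd.mul_right (hp2 _ c hc hca) _
  · rw [← map_mul]
    refine ann h _ fun c hc => ?_
    by_cases hca : c = e a
    · exact Dvd.dvd.mul_left (hp2 _ c hc (by rw [hca]; exact hinj a b hab)) _
    · exact Dvd.dvd.mul_right (hp2 _ c hc hca) _
  · rw [← map_sum, ← sub_eq_zero, ← map_one (aeval h : ℂ[X] →ₐ[ℂ] Matrix d d ℂ), ← map_sub]
    refine ann h _ fun c hc => ?_
    obtain ⟨a, rfl⟩ := hsur c hc
    rw [← Finset.add_sum_erase _ _ (Finset.mem_univ a), add_sub_right_comm]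
    refine dvd_add (hp1 _) (Finset.dvd_sum fun b hb => hp2 _ _ (e a).2 ?_)
    exact hinj a b (Finset.ne_of_mem_erase hb).symm
  · have := comm (p (e a : ℂ)) X
    rwa [aeval_X] at this
  · have e1 : h - (e a : ℂ) • (1 : Matrix d d ℂ) = aeval h (X - C (e a : ℂ)) := by
      rw [map_sub, aeval_X, aeval_C, Algebra.algebraMap_eq_smul_one]
    rw [e1, ← map_pow, ← map_mul]
    refine ann h _ fun c hc => ?_
    by_cases hca : c = e a
    · rw [hca]
      exact Dvd.intro _ rfl
    · exact Dvd.dvd.mul_left (hp2 _ c hc hca) _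
  · exact aeval_comm h B hB _

/-- a basis of the group generated by the eigenvalues -/
theorem basisx (h : Matrix d d ℂ) (hn : Neat h) {n : ℕ} (lam : Fin n → ℂ)
    (hr : ∀ a, h.charpoly.IsRoot (lam a)) (hl : ∀ a, lam a ≠ 0) :
    ∃ (r : ℕ) (x : Fin r → ℂ) (m : Fin r → Fin n → ℤ) (f : Fin r → ℂ → ℂ),
      (∀ j, x j ≠ 0) ∧ (∀ a, lam a = ∏ j, x j ^ m j a) ∧
      (∀ j a b, f j (lam a / lam b) = (m j a : ℂ) - m j b) ∧
      ∀ k : Fin r → ℤ, ∏ j, x j ^ k j = 1 → k = 0 := by
  classical
  set S : Set ℂˣ := {z : ℂˣ | h.charpoly.IsRoot (z : ℂ)} with hS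
  have hne : h.charpoly ≠ 0 := (Matrix.charpoly_monic h).ne_zero
  have hfin : S.Finite := by
    have h1 : ((↑) '' S : Set ℂ).Finite := by
      refine (Polynomial.finite_setOfPred_isRoot hne).subset ?_
      rintro _ ⟨z, hz, rfl⟩
      exact hz
    exact h1.of_finite_image Units.val_injective.injOn
  set G : Subgroup ℂˣ := Subgroup.closure S with hG
  have : Group.FG G := by
    rw [← hfin.coe_toFinset] at hG
    rw [hG]
    exact Group.closure_finset_fg _
  have : IsMulTorsionFree G := by
    rw [isMulTorsionFree_iff_not_isOfFinOrder]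
    intro a ha hfo
    obtain ⟨k, hk, hak⟩ := isOfFinOrder_iff_pow_eq_one.mp hfo
    refine ha (Subtype.ext (hn a.1 a.2 k hk ?_))
    have := congrArg Subtype.val hak
    simpa using this
  have : Module.Finite ℤ (Additive G) := by
    rw [Module.Finite.iff_addGroup_fg]
    infer_instance
  set b := Module.finBasis ℤ (Additive G) with hb
  have hmem : ∀ a, Units.mk0 (lam a) (hl a) ∈ G := fun a =>
    Subgroup.subset_closure (by rw [hS, Set.mem_ofPred_eq, Units.val_mk0]; exact hr a)
  set g : Fin n → G := fun a => ⟨Units.mk0 (lam a) (hl a), hmem a⟩ with hg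
  refine ⟨_, fun j => (((b j).toMul : G) : ℂˣ), fun j a => b.repr (Additive.ofMul (g a)) j,
    fun j c => if hc : ∃ u : G, ((u : ℂˣ) : ℂ) = c then
      ((b.repr (Additive.ofMul hc.choose) j : ℤ) : ℂ) else 0, fun j => Units.ne_zero _, fun a => ?_,
    fun j a b' => ?_, fun k hk => ?_⟩
  · have h1 : ∑ j, b.repr (Additive.ofMul (g a)) j • b j = Additive.ofMul (g a) :=
      b.sum_repr _
    have h2 := congrArg (fun z : Additive G => ((z.toMul : G) : ℂˣ)) h1
    simp only [toMul_sum, toMul_zsmul, toMul_ofMul, Subgroup.val_finsetProd,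
      Subgroup.coe_zpow] at h2
    have h3 := congrArg (Units.val) h2
    simp only [Units.coe_prod, Units.val_zpow_eq_zpow_val, hg, Units.val_mk0] at h3
    exact h3.symm
  · have hex : ∃ u : G, ((u : ℂˣ) : ℂ) = lam a / lam b' :=
      ⟨g a * (g b')⁻¹, by
        simp only [hg, Subgroup.coe_mul, Subgroup.coe_inv, Units.val_mul, Units.val_inv_eq_inv_val,
          Units.val_mk0, div_eq_mul_inv]⟩
    have hch : hex.choose = g a * (g b')⁻¹ := by
      apply Subtype.ext
      apply Units.ext
      rw [hex.choose_spec]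
      simp only [hg, Subgroup.coe_mul, Subgroup.coe_inv, Units.val_mul, Units.val_inv_eq_inv_val,
          Units.val_mk0, div_eq_mul_inv]
    simp only [dif_pos hex]
    rw [hch, ofMul_mul, ofMul_inv, map_add, map_neg, Finsupp.add_apply, Finsupp.neg_apply]
    push_cast
    ring
  · have h1 : ∏ j, (((b j).toMul : G) : ℂˣ) ^ k j = 1 := by
      apply Units.ext
      rw [Units.coe_prod, Units.val_one]
      simpa only [Units.val_zpow_eq_zpow_val] using hk
    have h2 : ∏ j, ((b j).toMul : G) ^ k j = 1 := by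
      apply Subtype.ext
      rw [Subgroup.val_finsetProd, Subgroup.coe_one]
      simpa only [Subgroup.coe_zpow] using h1
    have h3 : ∑ j, k j • b j = 0 := by
      have h4 := congrArg Additive.ofMul h2
      simpa only [ofMul_prod, ofMul_zpow, ofMul_toMul, ofMul_one] using h4
    funext j
    exact Fintype.linearIndependent_iff.mp b.linearIndependent k h3 j

/-- JOX -/
theorem jox : JoxStmt := by
  intro d _ _ h hdet hn
  classical
  obtain ⟨n, N, lam, π, hroot, hid, hor, hsum, hcm, hN, hcc⟩ := specx h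
  have hne : h.charpoly ≠ 0 := (Matrix.charpoly_monic h).ne_zero
  have hl : ∀ a, lam a ≠ 0 := by
    intro a h0
    have h1 := hroot a
    rw [h0, Polynomial.IsRoot.def, ← Polynomial.coeff_zero_eq_eval_zero] at h1
    have h2 := Matrix.det_eq_sign_charpoly_coeff h
    rw [h1, mul_zero] at h2
    rw [h2] at hdet
    exact not_isUnit_zero hdet
  obtain ⟨r, x, m, f, hx, hlam, hf, hind⟩ := basisx h hn lam hroot hl
  have hh : h * h⁻¹ = 1 := Matrix.mul_nonsing_inv h hdet
  have hh' : h⁻¹ * h = 1 := Matrix.nonsing_inv_mul h hdet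
  -- the semisimple part and its inverse
  set S : Matrix d d ℂ := ∑ a, lam a • π a with hS
  set S' : Matrix d d ℂ := ∑ a, (lam a)⁻¹ • π a with hS'
  have hpiS : ∀ (c : Fin n → ℂ) (a : Fin n), π a * ∑ b, c b • π b = c a • π a := by
    intro c a
    rw [Finset.mul_sum, Finset.sum_eq_single a]
    · rw [mul_smul_comm, hid]
    · intro b _ hb
      rw [mul_smul_comm, hor a b hb.symm, smul_zero]
    · exact fun h => absurd (Finset.mem_univ a) h
  have hSpi : ∀ (c : Fin n → ℂ) (a : Fin n), (∑ b, c b • π b) * π a = c a • π a := by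
    intro c a
    rw [Finset.sum_mul, Finset.sum_eq_single a]
    · rw [smul_mul_assoc, hid]
    · intro b _ hb
      rw [smul_mul_assoc, hor b a hb, smul_zero]
    · exact fun h => absurd (Finset.mem_univ a) h
  have hprod : ∀ c c' : Fin n → ℂ, (∀ a, c a * c' a = 1) →
      (∑ a, c a • π a) * (∑ a, c' a • π a) = 1 := by
    intro c c' hcc
    rw [Finset.sum_mul, ← hsum]
    refine Finset.sum_congr rfl fun a _ => ?_
    rw [smul_mul_assoc, hpiS, smul_smul, hcc, one_smul]
  have hSS' : S * S' = 1 := hprod _ _ fun a => mul_inv_cancel₀ (hl a)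
  have hS'S : S' * S = 1 := hprod _ _ fun a => inv_mul_cancel₀ (hl a)
  have hcom : ∀ c : Fin n → ℂ, (∑ a, c a • π a) * h = h * ∑ a, c a • π a := by
    intro c
    rw [Finset.sum_mul, Finset.mul_sum]
    refine Finset.sum_congr rfl fun a _ => ?_
    rw [smul_mul_assoc, mul_smul_comm, hcm]
  have hcom' : ∀ c : Fin n → ℂ, (∑ a, c a • π a) * h⁻¹ = h⁻¹ * ∑ a, c a • π a := by
    intro c
    calc (∑ a, c a • π a) * h⁻¹ = h⁻¹ * (h * ∑ a, c a • π a) * h⁻¹ := by
          rw [← mul_assoc h⁻¹, hh', one_mul]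
      _ = h⁻¹ * (∑ a, c a • π a) * (h * h⁻¹) := by rw [← hcom]; simp only [mul_assoc]
      _ = h⁻¹ * ∑ a, c a • π a := by rw [hh, mul_one]
  set U : Matrix d d ℂ := S' * h with hU
  have hUinv : U⁻¹ = S * h⁻¹ := by
    apply Matrix.inv_eq_right_inv
    rw [hU, mul_assoc, ← mul_assoc h, ← hcom, mul_assoc S, hh, mul_one, hS'S]
  have hUpi : ∀ a, π a * U = U * π a := by
    intro a
    rw [hU, ← mul_assoc, hpiS, mul_assoc, ← hcm, ← mul_assoc, hSpi]
  refine ⟨r, n, π, m, x, U, hid, hor, hsum, hx, ?_, hUpi, ?_, ?_, hind, fun B hB => ⟨hcc B hB, ?_⟩⟩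
  · -- nilpotency
    have hstep : ∀ a, π a * (U - 1) = (lam a)⁻¹ • ((h - lam a • (1 : Matrix d d ℂ)) * π a) := by
      intro a
      rw [mul_sub, mul_one, hU, ← mul_assoc, hpiS, smul_mul_assoc, hcm, sub_mul, smul_sub,
        smul_mul_assoc, one_mul, smul_smul, inv_mul_cancel₀ (hl a), one_smul]
    have hpow : ∀ a (k : ℕ), π a * (U - 1) ^ k =
        ((lam a)⁻¹) ^ k • ((h - lam a • (1 : Matrix d d ℂ)) ^ k * π a) := by
      intro a k
      induction k with
      | zero => simp
      | succ k ih =>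
        rw [pow_succ, ← mul_assoc, ih, smul_mul_assoc, mul_assoc, hstep, mul_smul_comm, smul_smul,
          ← pow_succ, ← mul_assoc, ← pow_succ]
    refine ⟨N, ?_⟩
    calc (U - 1) ^ N = (∑ a, π a) * (U - 1) ^ N := by rw [hsum, one_mul]
      _ = 0 := by
        rw [Finset.sum_mul]
        refine Finset.sum_eq_zero fun a _ => ?_
        rw [hpow, hN, smul_zero]
  · have : ∑ a, (∏ j, x j ^ m j a) • π a = S := by
      rw [hS]
      exact Finset.sum_congr rfl fun a _ => by rw [hlam a]
    rw [this, hU, ← mul_assoc, hSS', one_mul]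
  · intro W hW
    have hst := stab h h⁻¹ hh hh' lam hl π hcm hsum hN W hW
    constructor
    · intro A hA
      have h1 := hst (fun c => c⁻¹) A hA
      have h2 : ∑ a, ∑ b, (lam a / lam b)⁻¹ • (π a * A * π b) = S' * A * S := by
        rw [hS', hS, Finset.sum_mul, Finset.sum_mul]
        refine Finset.sum_congr rfl fun a _ => ?_
        rw [Finset.mul_sum]
        refine Finset.sum_congr rfl fun b _ => ?_
        rw [smul_mul_assoc, smul_mul_assoc, mul_smul_comm, smul_smul, inv_div, div_eq_mul_inv,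
          mul_comm]
      have h3 := hW _ h1
      rw [h2] at h3
      have h4 : U * A * U⁻¹ = h * (S' * A * S) * h⁻¹ := by
        rw [hUinv, hU, hcom, ← hS']
        simp only [mul_assoc]
      rw [h4]
      exact h3
    · intro j A hA
      have h1 := hst (f j) A hA
      have h2 : ∑ a, ∑ b, f j (lam a / lam b) • (π a * A * π b) =
          (∑ a, (m j a : ℂ) • π a) * A - A * ∑ a, (m j a : ℂ) • π a := by
        have e1 : (∑ a, (m j a : ℂ) • π a) * A = ∑ a, ∑ b, (m j a : ℂ) • (π a * A * π b) := by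
          rw [Finset.sum_mul]
          refine Finset.sum_congr rfl fun a _ => ?_
          rw [← Finset.smul_sum, ← Finset.mul_sum, hsum, mul_one, smul_mul_assoc]
        have e2 : A * (∑ a, (m j a : ℂ) • π a) = ∑ a, ∑ b, (m j b : ℂ) • (π a * A * π b) := by
          rw [Finset.sum_comm, Finset.mul_sum]
          refine Finset.sum_congr rfl fun b _ => ?_
          rw [← Finset.smul_sum, ← Finset.sum_mul, ← Finset.sum_mul, hsum, one_mul, mul_smul_comm]
        rw [e1, e2, ← Finset.sum_sub_distrib]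
        refine Finset.sum_congr rfl fun a _ => ?_
        rw [← Finset.sum_sub_distrib]
        refine Finset.sum_congr rfl fun b _ => ?_
        rw [hf, sub_smul]
      rw [← h2]
      exact h1
  · have h1 : S' * B = B * S' := by
      rw [hS', Finset.sum_mul, Finset.mul_sum]
      refine Finset.sum_congr rfl fun a _ => ?_
      rw [smul_mul_assoc, mul_smul_comm, hcc B hB]
    rw [hU, mul_assoc, hB, ← mul_assoc, h1, mul_assoc]

end Pool.Agent.MT100E.H46
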