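import Pool.Agent.MT100E.Stmts
import Pool.Agent.Helper46_MT.Final

/-! MT100-E, module LAT: the relations between the determinants of the Deligne torus. -/

set_option autoImplicit false

namespace Pool.Agent.MT100E.H46

open Matrix Pool.Agent.MT100 Pool.Agent.MT100A Pool.Agent.MT100D
  Pool.Agent.Helper78_MT Pool.Agent.MT100A.H78 Pool.Agent.Helper46_MT

variable {d : Type} [Fintype d] [DecidableEq d]

/-- the trace of an idempotent is a natural number -/
theorem tr_idem {e : Matrix d d ℂ} (he : e * e = e) : ∃ n : ℕ, e.trace = (n : ℂ) := by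
  have h1 : IsIdempotentElem (Matrix.toLin' e) := by
    show Matrix.toLin' e * Matrix.toLin' e = Matrix.toLin' e
    rw [Module.End.mul_eq_comp, ← Matrix.toLin'_mul, he]
  have h2 := (LinearMap.IsIdempotentElem.isProj_range _ h1).trace
  rw [Matrix.trace_toLin'_eq] at h2
  exact ⟨_, h2⟩

omit [DecidableEq d] in
theorem tr_map (A : Matrix d d ℂ) (f : ℂ →+* ℂ) : (A.map f).trace = f A.trace := by
  unfold Matrix.trace
  rw [map_sum]
  rfl

theorem prod_zpow_sum {ι : Type*} (s : Finset ι) {z : ℂ} (hz : z ≠ 0) (f : ι → ℤ) :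
    ∏ i ∈ s, z ^ f i = z ^ ∑ i ∈ s, f i := by
  classical
  induction s using Finset.induction_on with
  | empty => rw [Finset.prod_empty, Finset.sum_empty, zpow_zero]
  | insert a s ha ih => rw [Finset.prod_insert ha, Finset.sum_insert ha, ih, zpow_add₀ hz]

/-- characters of the Deligne torus -/
theorem char_zero {A B : ℤ} (h : ∀ z : ℂ, z ≠ 0 → z ^ A * (starRingEnd ℂ z) ^ B = 1) : A = 0 := by
  have h1 : A + B = 0 := by
    have h2 := h (2 : ℝ) (by norm_num)
    rw [Complex.conj_ofReal, ← zpow_add₀ (by norm_num)] at h2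
    have h3 : ((2 : ℝ) ^ (A + B)) = 1 := by exact_mod_cast h2
    exact (zpow_eq_one_iff_right₀ (by norm_num) (by norm_num)).mp h3
  have h2 := h (Complex.exp Complex.I) (Complex.exp_ne_zero _)
  rw [← Complex.exp_conj, Complex.conj_I, ← Complex.exp_int_mul, ← Complex.exp_int_mul,
    ← Complex.exp_add, Complex.exp_eq_one_iff] at h2
  obtain ⟨n, hn⟩ := h2
  have h3 : ((A - B : ℤ) : ℂ) = ((n : ℝ) * (2 * Real.pi) : ℝ) := by
    have h4 : Complex.I * ((A - B : ℤ) : ℂ) = Complex.I * (((n : ℝ) * (2 * Real.pi) : ℝ) : ℂ) := by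
      push_cast
      linear_combination hn
    exact mul_left_cancel₀ Complex.I_ne_zero h4
  have h4 : ((A - B : ℤ) : ℝ) = (n : ℝ) * (2 * Real.pi) := by exact_mod_cast h3
  have h5 : n = 0 := by
    by_contra hne
    have hn' : (n : ℝ) ≠ 0 := by exact_mod_cast hne
    refine irrational_pi ⟨((A - B : ℤ) : ℚ) / (2 * n), ?_⟩
    push_cast at h4 ⊢
    rw [h4]
    field_simp
  rw [h5, Int.cast_zero, zero_mul] at h4
  have h6 : A - B = 0 := by exact_mod_cast h4
  omega

/-- the elements of the Deligne torus -/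
theorem torus_eq {M : Set (Matrix d d ℂ)} {w : ℕ} {E : Matrix d d ℚ}
    {V : ℕ → Submodule ℂ (d → ℂ)} {π : ℕ → Matrix d d ℂ} (hC : Ctx M w E V π)
    {T : Matrix d d ℂ} (hT : T ∈ hodgeTorus w V) :
    ∃ z : ℂ, z ≠ 0 ∧ T = ∑ p ∈ Finset.range (w + 1),
      (z ^ p * (starRingEnd ℂ z) ^ (w - p)) • π p := by
  obtain ⟨z, hz, hTz⟩ := hT
  refine ⟨z, hz, ?_⟩
  have h1 : T = ∑ p ∈ Finset.range (w + 1), T * π p := by
    rw [← Finset.mul_sum, hC.proj.sum, mul_one]
  rw [h1]
  refine Finset.sum_congr rfl fun p hp => ?_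
  have hp' := Nat.lt_succ_iff.1 (Finset.mem_range.1 hp)
  refine Matrix.toLin'.injective (LinearMap.ext fun x => ?_)
  rw [Matrix.toLin'_apply, Matrix.toLin'_apply, ← Matrix.mulVec_mulVec,
    hTz p hp' _ (hC.mem p x), Matrix.smul_mulVec]
  rfl

/-- LAT -/
theorem lat (hA : AutStmt) (hD : DteStmt) : LatStmt := by
  intro d _ _ M w E V π hC s e he hZ
  obtain ⟨hcom, haut⟩ := hA d M w E V π hC
  have heC : ∀ (σ : ℂ ≃+* ℂ) i, (e i).map σ ∈ Cmt M := fun σ i => (haut σ).1 _ (hZ i).1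
  have heI : ∀ (σ : ℂ ≃+* ℂ) i, (e i).map σ * (e i).map σ = (e i).map σ := by
    intro σ i
    have h1 : (e i * e i).map (σ : ℂ →+* ℂ) =
        (e i).map (σ : ℂ →+* ℂ) * (e i).map (σ : ℂ →+* ℂ) := Matrix.map_mul
    rw [he i] at h1
    exact h1.symm
  have hcm : ∀ (σ : ℂ ≃+* ℂ) i, ∀ p ≤ w, π p * (e i).map σ = (e i).map σ * π p :=
    fun σ i p hp => hcom p hp _ (heC σ i)
  have hex : ∀ (σ : ℂ ≃+* ℂ) (i : Fin s) (p : ℕ), ∃ n : ℕ,
      p ≤ w → (π p * (e i).map σ).trace = (n : ℂ) := by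
    intro σ i p
    by_cases hp : p ≤ w
    · obtain ⟨n, hn⟩ := tr_idem (e := π p * (e i).map σ) (by
        calc π p * (e i).map σ * (π p * (e i).map σ)
            = π p * ((e i).map σ * π p) * (e i).map σ := by simp only [Matrix.mul_assoc]
          _ = (π p * π p) * ((e i).map σ * (e i).map σ) := by
              rw [← hcm σ i p hp]
              simp only [Matrix.mul_assoc]
          _ = π p * (e i).map σ := by rw [hC.proj.idem p hp, heI])
      exact ⟨n, fun _ => hn⟩
    · exact ⟨0, fun h => absurd h hp⟩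
  choose n hn using hex
  set a : (ℂ ≃+* ℂ) → Fin s → ℕ := fun σ i => ∑ p ∈ Finset.range (w + 1), p * n σ i p with ha
  set b : (ℂ ≃+* ℂ) → Fin s → ℕ := fun σ i => ∑ p ∈ Finset.range (w + 1), (w - p) * n σ i p
    with hb
  -- complex conjugation
  set c : ℂ ≃+* ℂ := starRingAut with hc
  have hcc : ∀ x : ℂ, c x = starRingEnd ℂ x := fun x => rfl
  have hnc : ∀ (σ : ℂ ≃+* ℂ) (i : Fin s), ∀ p ≤ w, n σ i (w - p) = n (σ.trans c) i p := by
    intro σ i p hp
    have h1 : (π (w - p) * (e i).map σ) =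
        (π p * (e i).map (σ.trans c)).map (c : ℂ →+* ℂ) := by
      rw [Matrix.map_mul, ← hC.proj.conj p hp]
      congr 1
      ext x y
      simp only [Matrix.map_apply]
      show σ (e i x y) = starRingEnd ℂ (starRingEnd ℂ (σ (e i x y)))
      rw [Complex.conj_conj]
    have h2 := hn σ i (w - p) (Nat.sub_le w p)
    rw [h1, tr_map, hn (σ.trans c) i p hp, map_natCast] at h2
    exact_mod_cast h2.symm
  have hba : ∀ (σ : ℂ ≃+* ℂ) (i : Fin s), b σ i = a (σ.trans c) i := by
    intro σ i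
    have h1 := Finset.sum_range_reflect (fun p => (w - p) * n σ i p) (w + 1)
    show ∑ p ∈ Finset.range (w + 1), (w - p) * n σ i p =
      ∑ p ∈ Finset.range (w + 1), p * n (σ.trans c) i p
    rw [← h1]
    refine Finset.sum_congr rfl fun p hp => ?_
    have hp' := Nat.lt_succ_iff.1 (Finset.mem_range.1 hp)
    have h2 : w + 1 - 1 - p = w - p := by omega
    rw [h2, hnc σ i p hp']
    congr 1
    omega
  -- the traces
  have htr : ∀ (σ : ℂ ≃+* ℂ) (i : Fin s), (Phi w π * (e i).map σ).trace = (a σ i : ℂ) := by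
    intro σ i
    unfold Phi
    rw [Finset.sum_mul, Matrix.trace_sum, ha]
    push_cast
    refine Finset.sum_congr rfl fun p hp => ?_
    rw [Matrix.smul_mul, Matrix.trace_smul, smul_eq_mul,
      hn σ i p (Nat.lt_succ_iff.1 (Finset.mem_range.1 hp))]
  -- the determinants
  have hdet : ∀ (σ : ℂ ≃+* ℂ) (i : Fin s) (z : ℂ),
      dete (∑ p ∈ Finset.range (w + 1), (z ^ p * (starRingEnd ℂ z) ^ (w - p)) • π p)
        ((e i).map σ) = z ^ a σ i * (starRingEnd ℂ z) ^ b σ i := by
    intro σ i z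
    have h1 := hD d (w + 1) (fun p => π p) (fun p => z ^ (p : ℕ) * (starRingEnd ℂ z) ^ (w - p))
      1 ((e i).map σ) (fun p => hC.proj.idem p (Nat.lt_succ_iff.1 p.2))
      (fun p q hpq => hC.proj.orth p (Nat.lt_succ_iff.1 p.2) q (Nat.lt_succ_iff.1 q.2)
        fun h => hpq (Fin.ext h))
      (by rw [← hC.proj.sum, Finset.sum_range]) (by rw [sub_self]; exact IsNilpotent.zero)
      (fun p => by rw [mul_one, one_mul]) (heI σ i)
      (fun p => hcm σ i p (Nat.lt_succ_iff.1 p.2)) (by rw [mul_one, one_mul])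
      (fun p => n σ i p) (fun p => hn σ i p (Nat.lt_succ_iff.1 p.2))
    rw [mul_one] at h1
    rw [Finset.sum_range, h1, ← Finset.prod_range (fun p =>
      (z ^ p * (starRingEnd ℂ z) ^ (w - p)) ^ n σ i p)]
    simp only [mul_pow, ← pow_mul]
    rw [Finset.prod_mul_distrib, Finset.prod_pow_eq_pow_sum, Finset.prod_pow_eq_pow_sum]
  have hprod : ∀ (σ : ℂ ≃+* ℂ) (m : Fin s → ℤ) (z : ℂ), z ≠ 0 →
      ∏ i, dete (∑ p ∈ Finset.range (w + 1), (z ^ p * (starRingEnd ℂ z) ^ (w - p)) • π p)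
        ((e i).map σ) ^ m i =
      z ^ (∑ i, m i * (a σ i : ℤ)) * (starRingEnd ℂ z) ^ (∑ i, m i * (b σ i : ℤ)) := by
    intro σ m z hz
    rw [← prod_zpow_sum _ hz, ← prod_zpow_sum _ ((map_ne_zero _).2 hz), ← Finset.prod_mul_distrib]
    refine Finset.prod_congr rfl fun i _ => ?_
    rw [hdet, mul_zpow, ← zpow_natCast, ← zpow_natCast, ← _root_.zpow_mul, ← _root_.zpow_mul,
      mul_comm (m i), mul_comm (m i)]
  refine ⟨fun τ i => (a τ.symm i : ℤ), ?_, ?_⟩
  · intro τ i
    have h1 : (Phi w π).map τ * e i = (Phi w π * (e i).map τ.symm).map (τ : ℂ →+* ℂ) := by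
      rw [Matrix.map_mul]
      congr 1
      ext x y
      simp only [Matrix.map_apply]
      exact (τ.apply_symm_apply (e i x y)).symm
    rw [h1, tr_map, htr, map_natCast, Int.cast_natCast]
  · intro m
    constructor
    · intro h τ
      refine (char_zero (B := ∑ i, m i * (b τ.symm i : ℤ)) fun z hz => ?_)
      rw [← hprod τ.symm m z hz]
      refine h τ.symm _ ?_
      exact hz_torus hC.proj hC.fix hz
    · intro h τ T hT
      obtain ⟨z, hz, rfl⟩ := torus_eq hC hT
      rw [hprod τ m z hz]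
      have h1 := h τ.symm
      have h2 := h (τ.trans c).symm
      simp only [RingEquiv.symm_symm] at h1 h2
      simp only [hba]
      rw [h1, h2, zpow_zero, zpow_zero, mul_one]

end Pool.Agent.MT100E.H46
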